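import Pool.Agent.H40.Path5

set_option autoImplicit false

namespace Pool.Agent.Results.MP_ea6e61_lc.NoDefPath

open Pool.Agent.H40.Bsig

theorem result : ∃ M : Mod, RCA0 M ∧ Bnd M 2 ∧ ¬ Ind M 2 ∧ ¬ IndFO M 2 ∧ ∃ T : Set M.N,
    (∃ φ v, FO φ ∧ Lv 2 false φ ∧ ∀ c V, c ∈ T ↔ Sat M φ (cons c v) V) ∧ IsTree M T ∧
    (∃ g, IsPath M T g ∧ Bnd (Adj M g) 2) ∧
    ∀ h, IsPath M T h → ∀ φ, FO φ → ∀ v V, ¬ ∀ x y, h x = y ↔ Sat M φ (cons y (cons x v)) V :=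
  ⟨C1.M, Cut.rca sigC ⟨_, graph⟩, Cut.bnd sigC, fun h => notIndFO fun φ a b v V c d x =>
    (sat_fo _ a _ _ _).1 (h φ b v _ (fun _ => graph) ((sat_fo _ a _ _ _).1 c)
      (fun x e => (sat_fo _ a _ _ _).1 (d x ((sat_fo _ a _ _ _).1 e))) x),
    notIndFO, TR, TR_def, tree, ⟨gg, path, adj⟩, nodef⟩

end Pool.Agent.Results.MP_ea6e61_lc.NoDefPath
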